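import Pool.Agent.KS6_32.RL.Final
import Pool.Agent.KS6_32.RL.OneHyp
import Pool.Graph.R_seed8.Results.MP_d62fe1_co.BothQuestions

set_option autoImplicit false

/-!
The (2:2) Maker-Breaker game on the `N × N` board: Breaker prevents `q × q` lattices,
`q = ⌊c √(log₂ N)⌋`, for large `N`, if `c > 1` for the aligned square lattices, if `c > √2` for all
lattices of rectangles (aligned or tilted) and of rhombuses (by one strategy), and if `c > 2` for all
parallelogram lattices. This contains questions Q1 and Q2 of MP_d62fe1_co.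
-/

namespace Pool.Agent.Results.MP_d62fe1_co.AllLatticeTypes

open Pool.Agent.Results.MP_d62fe1_co.BothQuestions
open Pool.Agent

/-- The `q × q` lattice `{P + i u + j v : 0 ≤ i, j ≤ q - 1}`. -/
def lattice (q : ℕ) (P u v : ℤ × ℤ) : Set (ℤ × ℤ) :=
  {x | ∃ i j : ℕ, i < q ∧ j < q ∧ x = P + (i : ℤ) • u + (j : ℤ) • v}

/-- The `q × q` lattices of rectangles, aligned or tilted: the steps `u`, `v` are linearly
independent and orthogonal. -/
def rectangleLattices (q : ℕ) : Set (Set (ℤ × ℤ)) :=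
  {S | ∃ P u v : ℤ × ℤ, LinearIndependent ℤ ![u, v] ∧ u.1 * v.1 + u.2 * v.2 = 0 ∧
    S = lattice q P u v}

/-- The `q × q` lattices of rhombuses: the steps `u`, `v` are linearly independent and have the same
length. -/
def rhombusLattices (q : ℕ) : Set (Set (ℤ × ℤ)) :=
  {S | ∃ P u v : ℤ × ℤ, LinearIndependent ℤ ![u, v] ∧ u.1 ^ 2 + u.2 ^ 2 = v.1 ^ 2 + v.2 ^ 2 ∧
    S = lattice q P u v}

/-- The `q × q` aligned square lattices. -/
def alignedSquares (q : ℕ) : Set (Set (ℤ × ℤ)) :=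
  {S | ∃ (P : ℤ × ℤ) (d : ℤ), 1 ≤ d ∧ S = lattice q P (d, 0) (0, d)}

/-- The `q × q` lattices of squares, aligned or tilted. -/
def squareLattices (q : ℕ) : Set (Set (ℤ × ℤ)) :=
  {S | ∃ P u : ℤ × ℤ, u ≠ 0 ∧ S = lattice q P u (-u.2, u.1)}

theorem det_ne {u v : ℤ × ℤ} (huv : LinearIndependent ℤ ![u, v]) : Rect22.det2 u v ≠ 0 := by
  intro hdet
  rw [LinearIndependent.pair_iff] at huv
  unfold Rect22.det2 at hdet
  have h1 := huv v.2 (-u.2) (by
    ext
    · simp only [Prod.fst_add, Prod.smul_fst, smul_eq_mul, Prod.fst_zero]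
      linarith
    · simp only [Prod.snd_add, Prod.smul_snd, smul_eq_mul, Prod.snd_zero]
      ring)
  have h2 := huv v.1 (-u.1) (by
    ext
    · simp only [Prod.fst_add, Prod.smul_fst, smul_eq_mul, Prod.fst_zero]
      ring
    · simp only [Prod.snd_add, Prod.smul_snd, smul_eq_mul, Prod.snd_zero]
      linarith)
  have hu : u = 0 := by
    ext
    · simp only [Prod.fst_zero]
      linarith [h2.2]
    · simp only [Prod.snd_zero]
      linarith [h1.2]
  have h3 := huv 1 0 (by rw [hu]; simp)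
  exact one_ne_zero h3.1

theorem li_of_det {u v : ℤ × ℤ} (h : Rect22.det2 u v ≠ 0) : LinearIndependent ℤ ![u, v] := by
  rw [LinearIndependent.pair_iff]
  intro s t hst
  have e1 : s * u.1 + t * v.1 = 0 := by
    have := congrArg Prod.fst hst
    simpa using this
  have e2 : s * u.2 + t * v.2 = 0 := by
    have := congrArg Prod.snd hst
    simpa using this
  unfold Rect22.det2 at h
  constructor
  · have : s * (u.1 * v.2 - u.2 * v.1) = 0 := by linear_combination v.2 * e1 - v.1 * e2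
    exact (mul_eq_zero.1 this).resolve_right h
  · have : t * (u.1 * v.2 - u.2 * v.1) = 0 := by linear_combination (-u.2) * e1 + u.1 * e2
    exact (mul_eq_zero.1 this).resolve_right h

theorem mono {V : Finset (ℤ × ℤ)} {F G : Set (Set (ℤ × ℤ))} (h : F ⊆ G)
    (hG : BreakerWins V G) : BreakerWins V F := by
  obtain ⟨τ, h1, h2⟩ := hG
  exact ⟨τ, h1, fun g h3 h4 h5 S hS => h2 g h3 h4 h5 S (h hS)⟩

theorem square_sub (q : ℕ) : squareLattices q ⊆ rectangleLattices q ∩ rhombusLattices q := by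
  rintro S ⟨P, u, hu, rfl⟩
  have hd : Rect22.det2 u (-u.2, u.1) ≠ 0 := by
    unfold Rect22.det2
    intro h0
    have h1 : u.1 ^ 2 + u.2 ^ 2 = 0 := by
      linear_combination h0
    apply hu
    have h2 : u.1 = 0 := by nlinarith [sq_nonneg u.1, sq_nonneg u.2]
    have h3 : u.2 = 0 := by nlinarith [sq_nonneg u.1, sq_nonneg u.2]
    exact Prod.ext h2 h3
  refine ⟨⟨P, u, _, li_of_det hd, ?_, rfl⟩, ⟨P, u, _, li_of_det hd, ?_, rfl⟩⟩
  · simp only
    ring
  · simp only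
    ring

theorem aligned_sub (q : ℕ) : rectangles q ⊆ rectangleLattices q := by
  rintro S ⟨P, d, e, hd, he, rfl⟩
  refine ⟨P, (d, 0), (0, e), li_of_det ?_, ?_, rfl⟩
  · unfold Rect22.det2
    simp only [mul_zero, sub_zero]
    positivity
  · simp

theorem both_wins (c : ℝ) (hc : Real.sqrt 2 < c) : ∃ N₀ : ℕ, ∀ N : ℕ, N₀ ≤ N → ∀ q : ℕ,
    ⌊c * Real.sqrt (Real.logb 2 N)⌋₊ ≤ q →
      BreakerWins (board N) (rectangleLattices q ∪ rhombusLattices q) := by
  obtain ⟨N₀, h⟩ := KS6_32.RL.finalS c hc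
  refine ⟨N₀, fun N hN q hq => ?_⟩
  have hq' : c * Real.sqrt (Real.logb 2 N) ≤ q + 1 := by
    have h1 := Nat.lt_floor_add_one (c * Real.sqrt (Real.logb 2 N))
    have h2 : ((⌊c * Real.sqrt (Real.logb 2 N)⌋₊ : ℕ) : ℝ) ≤ q := by exact_mod_cast hq
    linarith
  refine h N hN q hq' _ ?_
  have hpt : ∀ (P u v : ℤ × ℤ) (i j : ℕ), i < q → j < q →
      Rect22.pt P u v (i : ℤ) (j : ℤ) ∈ lattice q P u v := by
    intro P u v i j hi hj
    refine ⟨i, j, hi, hj, ?_⟩
    unfold Rect22.pt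
    ext
    · simp
    · simp
  rintro S (⟨P, u, v, huv, ho, rfl⟩ | ⟨P, u, v, huv, ho, rfl⟩)
  · exact ⟨P, u, v, det_ne huv, Or.inl ho, fun i j hi hj => hpt P u v i j hi hj⟩
  · refine ⟨P, u, v, det_ne huv, Or.inr ?_, fun i j hi hj => hpt P u v i j hi hj⟩
    show u.1 * u.1 + u.2 * u.2 = v.1 * v.1 + v.2 * v.2
    linear_combination ho

theorem pt_mem (q : ℕ) (P u v : ℤ × ℤ) (i j : ℕ) (hi : i < q) (hj : j < q) :
    Rect22.pt P u v (i : ℤ) (j : ℤ) ∈ lattice q P u v := by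
  refine ⟨i, j, hi, hj, ?_⟩
  unfold Rect22.pt
  ext
  · simp
  · simp

theorem mem_Icc_of {N : ℕ} {u : ℤ × ℤ} (h : |u.1| ≤ N ∧ |u.2| ≤ N) : u ∈ KS6_32.RL.box N := by
  rw [KS6_32.RL.mem_box]
  rw [abs_le, abs_le] at h
  exact h

/-- The criterion: if at most `K N ^ κ` of the admitted pairs of steps have entries of absolute value
at most `N`, and at most `K` of them have a given combination `i u + j v = d ≠ 0`. -/
theorem criterion (T : (ℤ × ℤ) × (ℤ × ℤ) → Prop) (κ K : ℕ) (hκ : 1 ≤ κ) (hκ4 : κ ≤ 4)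
    (h1 : ∀ N : ℕ, 1 ≤ N → ∀ F : Finset ((ℤ × ℤ) × (ℤ × ℤ)),
      (∀ p ∈ F, T p ∧ (|p.1.1| ≤ N ∧ |p.1.2| ≤ N) ∧ (|p.2.1| ≤ N ∧ |p.2.2| ≤ N)) →
        F.card ≤ K * N ^ κ)
    (h2 : ∀ (d : ℤ × ℤ) (i j : ℤ), d ≠ 0 → i ≠ 0 ∨ j ≠ 0 → ∀ F : Finset ((ℤ × ℤ) × (ℤ × ℤ)),
      (∀ p ∈ F, T p ∧ i • p.1 + j • p.2 = d) → F.card ≤ K) :
    ∀ c : ℝ, Real.sqrt κ < c → ∃ N₀ : ℕ, ∀ N : ℕ, N₀ ≤ N → ∀ q : ℕ,
      ⌊c * Real.sqrt (Real.logb 2 N)⌋₊ ≤ q → BreakerWins (board N)
        {S | ∃ P u v : ℤ × ℤ, LinearIndependent ℤ ![u, v] ∧ T (u, v) ∧ S = lattice q P u v} := by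
  classical
  intro c hc
  obtain ⟨N₀, h⟩ := KS6_32.RL.One.finalG T (κ := κ) (K := K + 1) hκ hκ4 (by omega) (by
    intro N hN
    have h3 := h1 N hN (KS6_32.RL.SG T N) (by
      intro p hp
      obtain ⟨⟨h4, h5⟩, -, h6⟩ := (KS6_32.RL.mem_SG T).1 hp
      rw [KS6_32.RL.mem_box] at h4 h5
      rw [abs_le, abs_le, abs_le, abs_le]
      exact ⟨h6, h4, h5⟩)
    exact h3.trans (Nat.mul_le_mul_right _ (by omega))) (by
    intro N hN d hd i j hij
    refine (h2 d i j hd hij _ ?_).trans (by omega)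
    intro p hp
    rw [Finset.mem_filter] at hp
    refine ⟨((KS6_32.RL.mem_SG T).1 hp.1).2.2, ?_⟩
    refine Prod.ext ?_ ?_
    · simpa using hp.2.1
    · simpa using hp.2.2) c hc
  refine ⟨N₀, fun N hN q hq => ?_⟩
  have hq' : c * Real.sqrt (Real.logb 2 N) ≤ q + 1 := by
    have h1 := Nat.lt_floor_add_one (c * Real.sqrt (Real.logb 2 N))
    have h2 : ((⌊c * Real.sqrt (Real.logb 2 N)⌋₊ : ℕ) : ℝ) ≤ q := by exact_mod_cast hq
    linarith
  refine h N hN q hq' _ ?_
  rintro S ⟨P, u, v, huv, hT, rfl⟩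
  exact ⟨P, u, v, det_ne huv, hT, fun i j hi hj => pt_mem q P u v i j hi hj⟩

theorem square_wins (c : ℝ) (hc : 1 < c) : ∃ N₀ : ℕ, ∀ N : ℕ, N₀ ≤ N → ∀ q : ℕ,
    ⌊c * Real.sqrt (Real.logb 2 N)⌋₊ ≤ q → BreakerWins (board N) (alignedSquares q) := by
  classical
  obtain ⟨N₀, h⟩ := criterion KS6_32.RL.Sq 1 4 le_rfl (by norm_num) (by
    intro N hN F hF
    have h1 : F ⊆ (KS6_32.RL.SG KS6_32.RL.Sq N) ∪ {((0, 0), (0, 0))} := by
      intro p hp
      obtain ⟨hs, hb1, hb2⟩ := hF p hp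
      rw [Finset.mem_union, Finset.mem_singleton]
      by_cases h0 : p.1.1 = 0
      · right
        obtain ⟨a1, a2, a3⟩ := hs
        exact Prod.ext (Prod.ext h0 a1) (Prod.ext a2 (a3.trans h0))
      · left
        rw [KS6_32.RL.mem_SG]
        refine ⟨⟨mem_Icc_of hb1, mem_Icc_of hb2⟩, ?_, hs⟩
        obtain ⟨a1, a2, a3⟩ := hs
        unfold Rect22.det2
        rw [a1, a2, a3]
        simpa using h0
    have h2 := (Finset.card_le_card h1).trans (Finset.card_union_le _ _)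
    have h3 := KS6_32.RL.sq_card N
    rw [Finset.card_singleton] at h2
    rw [pow_one]
    omega) (by
    intro d i j hd hij F hF
    have h1 : F.card ≤ 1 := by
      rw [Finset.card_le_one]
      intro p hp p' hp'
      obtain ⟨⟨a1, a2, a3⟩, e1⟩ := hF p hp
      obtain ⟨⟨b1, b2, b3⟩, e2⟩ := hF p' hp'
      have f1 : i * p.1.1 + j * p.2.1 = d.1 := by simpa using congrArg Prod.fst e1
      have f2 : i * p.1.2 + j * p.2.2 = d.2 := by simpa using congrArg Prod.snd e1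
      have f3 : i * p'.1.1 + j * p'.2.1 = d.1 := by simpa using congrArg Prod.fst e2
      have f4 : i * p'.1.2 + j * p'.2.2 = d.2 := by simpa using congrArg Prod.snd e2
      have h : p.1.1 = p'.1.1 := by
        rcases hij with hi | hj
        · apply mul_left_cancel₀ hi
          rw [a2] at f1
          rw [b2] at f3
          linarith
        · apply mul_left_cancel₀ hj
          rw [a1, a3] at f2
          rw [b1, b3] at f4
          linarith
      exact Prod.ext (Prod.ext h (a1.trans b1.symm))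
        (Prod.ext (a2.trans b2.symm) (a3.trans (h.trans b3.symm)))
    omega) c (by simpa using hc)
  refine ⟨N₀, fun N hN q hq => mono ?_ (h N hN q hq)⟩
  rintro S ⟨P, d, hd, rfl⟩
  refine ⟨P, (d, 0), (0, d), li_of_det ?_, ⟨rfl, rfl, rfl⟩, rfl⟩
  unfold Rect22.det2
  simp only [mul_zero, sub_zero]
  positivity

/-- **The (2:2) game on the `N × N` board** (Maker moves first, each move claims two points, a single
point if only one remains). Below, `q = ⌊c √(log₂ N)⌋`, and everything holds also for all larger `q`.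
(1) For every constant `c > 1` and all large `N`, Breaker has a strategy which prevents Maker from
owning a `q × q` aligned square lattice.
(2) For every constant `c > √2` and all large `N`, Breaker has one strategy which prevents Maker from
owning any `q × q` lattice of rectangles (aligned or tilted) and any `q × q` lattice of rhombuses.
These lattices include the aligned rectangle lattices of Q2 and all square lattices.
(3) (Q2) For every constant `c > √2` and all large `N`, Breaker has a strategy which prevents Maker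
from owning a `q × q` aligned rectangle lattice.
(4) (Q1) For every constant `c > 2` and all large `N`, Breaker has a strategy which prevents Maker
from owning a `q × q` parallelogram lattice.
(5) A criterion. Let `T` be a set of pairs of steps and `κ ∈ {1, 2, 3, 4}`. If there is a `K` such
that at most `K N ^ κ` pairs `(u, v)` in `T` have entries of absolute value at most `N`, for every
`N ≥ 1`, and at most `K` pairs in `T` satisfy `i u + j v = d`, for all integers `i`, `j`, not both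
`0`, and all `d ≠ 0`, then for every constant `c > √κ` and all large `N` Breaker has a strategy which
prevents Maker from owning a `q × q` lattice with linearly independent steps `(u, v)` in `T`. -/
theorem result :
    (∀ c : ℝ, 1 < c → ∃ N₀ : ℕ, ∀ N : ℕ, N₀ ≤ N → ∀ q : ℕ,
      ⌊c * Real.sqrt (Real.logb 2 N)⌋₊ ≤ q → BreakerWins (board N) (alignedSquares q)) ∧
    ((∀ c : ℝ, Real.sqrt 2 < c → ∃ N₀ : ℕ, ∀ N : ℕ, N₀ ≤ N → ∀ q : ℕ,
      ⌊c * Real.sqrt (Real.logb 2 N)⌋₊ ≤ q →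
        BreakerWins (board N) (rectangleLattices q ∪ rhombusLattices q)) ∧
      ∀ q : ℕ, rectangles q ⊆ rectangleLattices q ∧
        squareLattices q ⊆ rectangleLattices q ∩ rhombusLattices q) ∧
    (∀ c : ℝ, Real.sqrt 2 < c → ∃ N₀ : ℕ, ∀ N : ℕ, N₀ ≤ N → ∀ q : ℕ,
      ⌊c * Real.sqrt (Real.logb 2 N)⌋₊ ≤ q → BreakerWins (board N) (rectangles q)) ∧
    (∀ c : ℝ, 2 < c → ∃ N₀ : ℕ, ∀ N : ℕ, N₀ ≤ N → ∀ q : ℕ,
      ⌊c * Real.sqrt (Real.logb 2 N)⌋₊ ≤ q → BreakerWins (board N) (parallelograms q)) ∧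
    ∀ (T : (ℤ × ℤ) × (ℤ × ℤ) → Prop) (κ K : ℕ), 1 ≤ κ → κ ≤ 4 →
      (∀ N : ℕ, 1 ≤ N → ∀ F : Finset ((ℤ × ℤ) × (ℤ × ℤ)),
        (∀ p ∈ F, T p ∧ (|p.1.1| ≤ N ∧ |p.1.2| ≤ N) ∧ (|p.2.1| ≤ N ∧ |p.2.2| ≤ N)) →
          F.card ≤ K * N ^ κ) →
      (∀ (d : ℤ × ℤ) (i j : ℤ), d ≠ 0 → i ≠ 0 ∨ j ≠ 0 → ∀ F : Finset ((ℤ × ℤ) × (ℤ × ℤ)),
        (∀ p ∈ F, T p ∧ i • p.1 + j • p.2 = d) → F.card ≤ K) →
      ∀ c : ℝ, Real.sqrt κ < c → ∃ N₀ : ℕ, ∀ N : ℕ, N₀ ≤ N → ∀ q : ℕ,
        ⌊c * Real.sqrt (Real.logb 2 N)⌋₊ ≤ q → BreakerWins (board N)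
          {S | ∃ P u v : ℤ × ℤ, LinearIndependent ℤ ![u, v] ∧ T (u, v) ∧ S = lattice q P u v} := by
  refine ⟨square_wins, ⟨both_wins, fun q => ⟨aligned_sub q, square_sub q⟩⟩, fun c hc => ?_,
    BothQuestions.result.1, criterion⟩
  obtain ⟨N₀, h⟩ := both_wins c hc
  exact ⟨N₀, fun N hN q hq => mono ((aligned_sub q).trans Set.subset_union_left) (h N hN q hq)⟩

end Pool.Agent.Results.MP_d62fe1_co.AllLatticeTypes
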